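import Mathlib
import Pool.Agent.H9.Pent.Exist
import Pool.Agent.H9.Pent.Fin

/-!
# MP_a2b463_nt, Q1

Every integer `n > 51` has the form
`w(5w-1)/2 + x(5x-1)/2 + y(5y+1)/2 + z(5z+1)/2` with `w, x, y, z` natural numbers; in fact the
only natural numbers that do not have this form are `1` and `19`.
-/

namespace Pool.Agent.Results.MP_a2b463_nt.FourPentagonal

open Pool.H9.Pent

lemma rep_iff_rat (n : ℕ) : Pool.H9.Pent.Rep n ↔ ∃ w x y z : ℕ, (n : ℚ) =
    (w : ℚ) * (5 * w - 1) / 2 + (x : ℚ) * (5 * x - 1) / 2 +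
      (y : ℚ) * (5 * y + 1) / 2 + (z : ℚ) * (5 * z + 1) / 2 := by
  unfold Pool.H9.Pent.Rep
  constructor
  · rintro ⟨w, x, y, z, h⟩
    refine ⟨w, x, y, z, ?_⟩
    have h' : 2 * (n : ℚ) = (w : ℚ) * (5 * w - 1) + x * (5 * x - 1) + y * (5 * y + 1) +
        z * (5 * z + 1) := by exact_mod_cast h
    linarith
  · rintro ⟨w, x, y, z, h⟩
    refine ⟨w, x, y, z, ?_⟩
    have h' : 2 * (n : ℚ) = (w : ℚ) * (5 * w - 1) + x * (5 * x - 1) + y * (5 * y + 1) +
        z * (5 * z + 1) := by linarith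
    exact_mod_cast h'

theorem result :
    (∀ n : ℕ, 51 < n → ∃ w x y z : ℕ, (n : ℚ) =
      (w : ℚ) * (5 * w - 1) / 2 + (x : ℚ) * (5 * x - 1) / 2 +
        (y : ℚ) * (5 * y + 1) / 2 + (z : ℚ) * (5 * z + 1) / 2) ∧
    (∀ n : ℕ, (∃ w x y z : ℕ, (n : ℚ) =
      (w : ℚ) * (5 * w - 1) / 2 + (x : ℚ) * (5 * x - 1) / 2 +
        (y : ℚ) * (5 * y + 1) / 2 + (z : ℚ) * (5 * z + 1) / 2) ↔ n ≠ 1 ∧ n ≠ 19) := by
  have key : ∀ n : ℕ, Pool.H9.Pent.Rep n ↔ n ≠ 1 ∧ n ≠ 19 := by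
    intro n
    constructor
    · intro h
      constructor
      · rintro rfl; exact not_rep_one h
      · rintro rfl; exact not_rep_nineteen h
    · rintro ⟨h1, h19⟩
      by_cases h2 : n < 21
      · exact rep_small h2 h1 h19
      · by_cases h3 : n < 6480000
        · exact rep_mid (by omega) h3
        · exact rep_large (by omega)
  constructor
  · intro n hn
    rw [← rep_iff_rat, key]
    omega
  · intro n
    rw [← rep_iff_rat, key]

end Pool.Agent.Results.MP_a2b463_nt.FourPentagonal
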